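import Pool.Agent.T6.H61.QP.Exist

/-!
# MP_8d4b21_pr, Q1: the stationary measure of a symmetric quasi-periodic walk is unique

For every irrational number, Liouville numbers included, and every symmetric environment of class
`C^1` the chain on the circle has exactly one stationary probability measure, and the chain is
reversible with respect to it. Existence and uniqueness are the theorem `H61.QP.existsUnique` of the
starting library (by helper61): the flux of a stationary measure is a multiple of the Lebesgue
measure, it vanishes by the Denjoy-Koksma inequality, so that a stationary measure is conformal for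
the rotation, and conformal measures are unique.
-/

set_option autoImplicit false

namespace Pool.Agent.Results.MP_8d4b21_pr.UniqueStationary

open MeasureTheory
open scoped ENNReal

/-- The transition operator of the chain `(X_t)` on the circle `ℝ/ℤ`:
`(P φ)(y) = p(y) φ(y + α) + q(y) φ(y - α)` with `q = 1 - p`. -/
noncomputable def transition (α : ℝ) (p : C(UnitAddCircle, Set.Ioo (0 : ℝ) 1))
    (φ : UnitAddCircle → ℝ) (y : UnitAddCircle) : ℝ :=
  p y * φ (y + (α : UnitAddCircle)) + (1 - p y) * φ (y - (α : UnitAddCircle))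

/-- `ν` is a stationary Borel probability measure: `∫ P φ dν = ∫ φ dν` for all continuous `φ`. -/
def IsStationary (α : ℝ) (p : C(UnitAddCircle, Set.Ioo (0 : ℝ) 1))
    (ν : Measure UnitAddCircle) : Prop :=
  IsProbabilityMeasure ν ∧
    ∀ φ : C(UnitAddCircle, ℝ), ∫ y, transition α p φ y ∂ν = ∫ y, φ y ∂ν

/-- A stationary measure has no flux. -/
theorem noFlux {α : ℝ} (hα : Irrational α) {p : UnitAddCircle → ℝ} (hp : Continuous p)
    (hp0 : ∀ y, 0 < p y) (hp1 : ∀ y, p y < 1)
    (hsym : ∫ y, Real.log (p y) = ∫ y, Real.log (1 - p y))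
    {ν : Measure UnitAddCircle} (hν : H61.QP.Stationary α p ν) (φ : UnitAddCircle → ℝ)
    (hφ : Continuous φ) :
    ∫ y, p y * φ y ∂ν = ∫ y, (1 - p y) * φ (y - (α : UnitAddCircle)) ∂ν := by
  have hc := H61.QP.conf_of_stationary hα hp hp0 hp1 hsym hν
  have hprob : IsProbabilityMeasure ν := hν.1
  have hqm : Measurable (fun y => ENNReal.ofReal (1 - p y)) := by
    have := hp.measurable
    fun_prop
  have h1 := hc (fun _ => 1) measurable_const
  rw [lintegral_withDensity_eq_lintegral_mul _ hqm measurable_const,
    lintegral_withDensity_eq_lintegral_mul _ hqm (by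
      have h2 : Measurable p := hp.measurable
      fun_prop)] at h1
  simp only [Pi.mul_apply, mul_one, one_mul] at h1
  have h3 : ∀ y, ENNReal.ofReal (1 - p y) *
      ENNReal.ofReal (Real.exp (Real.log (p y) - Real.log (1 - p y))) = ENNReal.ofReal (p y) := by
    intro y
    have hq : 0 < 1 - p y := sub_pos.2 (hp1 y)
    rw [← ENNReal.ofReal_mul hq.le, Real.exp_sub, Real.exp_log (hp0 y), Real.exp_log hq]
    congr 1
    field_simp
  simp_rw [h3] at h1
  have i1 : Integrable p ν := H61.QP.integrable_cont ν hp
  have i2 : Integrable (fun y => 1 - p y) ν := H61.QP.integrable_cont ν (by fun_prop)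
  rw [← ofReal_integral_eq_lintegral_ofReal i2 (Filter.Eventually.of_forall fun y =>
      (sub_pos.2 (hp1 y)).le),
    ← ofReal_integral_eq_lintegral_ofReal i1 (Filter.Eventually.of_forall fun y => (hp0 y).le)]
    at h1
  have h4 : ∫ y, (1 - p y) ∂ν = ∫ y, p y ∂ν := by
    have e1 : 0 ≤ ∫ y, (1 - p y) ∂ν := integral_nonneg fun y => (sub_pos.2 (hp1 y)).le
    have e2 : 0 ≤ ∫ y, p y ∂ν := integral_nonneg fun y => (hp0 y).le
    exact (ENNReal.ofReal_eq_ofReal_iff e1 e2).1 h1
  have h5 := H61.QP.flux hα hp hν φ hφ
  rw [h4, sub_self, zero_mul, add_zero] at h5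
  exact h5

/-- Let `α` be irrational (for instance Liouville) and let `p : ℝ/ℤ → (0, 1)` be of class `C^1` with
`∫ ln p = ∫ ln q`. Then the chain `(X_t)` has exactly one stationary probability measure, and it is
reversible with respect to it. -/
theorem result (α : ℝ) (hα : Irrational α) (p : C(UnitAddCircle, Set.Ioo (0 : ℝ) 1))
    (hp : ContDiff ℝ 1 (fun t : ℝ => (p (t : UnitAddCircle) : ℝ)))
    (hsym : ∫ y : UnitAddCircle, Real.log (p y) = ∫ y : UnitAddCircle, Real.log (1 - p y)) :
    (∃! ν : Measure UnitAddCircle, IsStationary α p ν) ∧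
    ∀ ν : Measure UnitAddCircle, IsStationary α p ν → ∀ φ ψ : C(UnitAddCircle, ℝ),
      ∫ y, transition α p φ y * ψ y ∂ν = ∫ y, φ y * transition α p ψ y ∂ν := by
  have h0 : ∀ y, (0 : ℝ) < p y := fun y => (p y).2.1
  have h1 : ∀ y, (p y : ℝ) < 1 := fun y => (p y).2.2
  have hpc : Continuous fun y => (p y : ℝ) := by fun_prop
  refine ⟨H61.QP.existsUnique hα hp h0 h1 hsym, fun ν hν φ ψ => ?_⟩
  have hprob : IsProbabilityMeasure ν := hν.1
  have key : ∀ a b : C(UnitAddCircle, ℝ), ∫ y, transition α p a y * b y ∂ν =
      ∫ y, (p y * (a (y + (α : UnitAddCircle)) * b y)) ∂ν +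
        ∫ y, (p y * (a y * b (y + (α : UnitAddCircle)))) ∂ν := by
    intro a b
    have e := noFlux hα hpc h0 h1 hsym hν (fun y => a y * b (y + (α : UnitAddCircle)))
      (by fun_prop)
    simp only [sub_add_cancel] at e
    rw [e, ← integral_add (H61.QP.integrable_cont ν (by fun_prop))
      (H61.QP.integrable_cont ν (by fun_prop))]
    congr 1
    ext y
    simp only [transition]
    ring
  have key2 := key ψ φ
  rw [key φ ψ]
  have e3 : ∫ y, φ y * transition α p ψ y ∂ν = ∫ y, transition α p ψ y * φ y ∂ν := by
    congr 1; ext y; ring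
  rw [e3, key2, add_comm]
  congr 1
  · congr 1; ext y; ring
  · congr 1; ext y; ring

end Pool.Agent.Results.MP_8d4b21_pr.UniqueStationary
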